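import Pool.Agent.H79.PRK.S6
import Pool.Agent.H20.HYP.TRN

/-!
# PRK, row SHAK: translation, and the polynomials with `a_1 = 0`
-/

set_option autoImplicit false

namespace Pool.PRK

open Polynomial Matrix Pool.HYP Pool.TOW Pool.AVS Pool.T1 IsDedekindDomain Pool.HYP.H20

namespace SHAK

section Sel

variable {K : Type} [Field K]

theorem sel_comp {f f' : K[X]} {ρ : K} (h : f' = f.comp (X + C ρ)) :
    ((SelG f').Finite ↔ (SelG f).Finite) ∧ (SelG f').ncard = (SelG f).ncard := by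
  classical
  set E := trE f f' ρ h with hE
  set e : (AdjoinRoot f)ˣ ≃* (AdjoinRoot f')ˣ :=
    Units.mapEquiv (E : AdjoinRoot f ≃* AdjoinRoot f') with he
  have hSq : (SqG f).map (e : (AdjoinRoot f)ˣ →* (AdjoinRoot f')ˣ) = SqG f' := by
    ext x
    constructor
    · rintro ⟨y, ⟨z, hz⟩, hy⟩
      refine ⟨e z, ?_⟩
      rw [← hy, ← hz]
      exact (map_pow e z 2).symm
    · rintro ⟨z, hz⟩
      refine ⟨e.symm x, ⟨e.symm z, ?_⟩, e.apply_symm_apply x⟩
      rw [← hz]
      exact (map_pow e.symm z 2).symm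
  set Q : ((AdjoinRoot f)ˣ ⧸ SqG f) ≃* ((AdjoinRoot f')ˣ ⧸ SqG f') :=
    QuotientGroup.congr _ _ e hSq with hQ
  have hQmk : ∀ u : (AdjoinRoot f)ˣ, Q (QuotientGroup.mk u) = QuotientGroup.mk (e u) :=
    fun u => rfl
  have heE : ∀ u : (AdjoinRoot f)ˣ, ((e u : (AdjoinRoot f')ˣ) : AdjoinRoot f') =
      E (u : AdjoinRoot f) := fun u => rfl
  have hback : f'.comp (X + C (-ρ)) = f := by rw [h, comp_comp_add]
  have hS : SelG f' = Q '' SelG f := by
    ext ξ
    constructor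
    · rintro ⟨u, p, hu, hp, hn, hl⟩
      have hEp : E (AdjoinRoot.mk f (p.comp (X + C (-ρ)))) = AdjoinRoot.mk f' p := by
        rw [hE, trE_mk, comp_comp_add']
      refine ⟨QuotientGroup.mk (e.symm u), ⟨e.symm u, p.comp (X + C (-ρ)), rfl, ?_, ?_, ?_⟩, ?_⟩
      · apply E.injective
        rw [hEp, hp, ← heE, e.apply_symm_apply]
      · have h3 := Algebra.norm_eq_of_algEquiv E (AdjoinRoot.mk f (p.comp (X + C (-ρ))))
        rw [hEp] at h3
        unfold NSq at hn ⊢
        rw [← h3]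
        exact hn
      · intro L _ O ι hι
        have h3 := locSol_comp (-ι ρ) (hl L O ι hι)
        have h4 : (f'.map ι).comp (X + C (-ι ρ)) = f.map ι := by
          have h5 := congrArg (fun p => p.map ι) hback
          simp only [Polynomial.map_comp] at h5
          simpa using h5
        have h5 : (p.comp (X + C (-ρ))).map ι = (p.map ι).comp (X + C (-ι ρ)) := by
          rw [Polynomial.map_comp]
          simp
        rw [h4] at h3
        rw [h5]
        exact h3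
      · rw [hQmk, e.apply_symm_apply]
        exact hu
    · rintro ⟨η, ⟨u, p, hu, hp, hn, hl⟩, hη⟩
      have hEp : E (AdjoinRoot.mk f p) = AdjoinRoot.mk f' (p.comp (X + C ρ)) := by
        rw [hE, trE_mk]
      refine ⟨e u, p.comp (X + C ρ), ?_, ?_, ?_, ?_⟩
      · rw [← hQmk, hu, hη]
      · rw [heE, ← hp, hEp]
      · have h3 := Algebra.norm_eq_of_algEquiv E (AdjoinRoot.mk f p)
        rw [hEp] at h3
        unfold NSq at hn ⊢
        rw [h3]
        exact hn
      · intro L _ O ι hι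
        have h3 := locSol_comp (ι ρ) (hl L O ι hι)
        have h4 : (f.map ι).comp (X + C (ι ρ)) = f'.map ι := by
          rw [h, Polynomial.map_comp]
          simp
        have h5 : (p.comp (X + C ρ)).map ι = (p.map ι).comp (X + C (ι ρ)) := by
          rw [Polynomial.map_comp]
          simp
        rw [h4] at h3
        rw [h5]
        exact h3
  rw [hS]
  exact ⟨Set.finite_image_iff Q.injective.injOn, Set.ncard_image_of_injective _ Q.injective⟩

end Sel

section Tay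

theorem tay_coeff {R : Type} [CommRing R] (f : R[X]) (r : R) (n : ℕ) :
    (taylor r f).coeff n =
      ∑ i ∈ Finset.range (f.natDegree + 1), (i.choose n : R) * f.coeff i * r ^ (i - n) := by
  rw [taylor_coeff, hasseDeriv_apply]
  rw [f.sum_over_range (by intro n; simp)]
  rw [eval_finsetSum]
  exact Finset.sum_congr rfl fun i _ => by rw [eval_monomial]

theorem tay_scale {R : Type} [CommRing R] (f : R[X]) (t d : R) :
    (taylor t f).scaleRoots d = taylor (d * t) (f.scaleRoots d) := by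
  ext n
  rw [coeff_scaleRoots, natDegree_taylor, tay_coeff, tay_coeff, natDegree_scaleRoots,
    Finset.sum_mul]
  refine Finset.sum_congr rfl fun k hk => ?_
  rw [Finset.mem_range] at hk
  rw [coeff_scaleRoots]
  rcases lt_or_ge k n with h | h
  · rw [Nat.choose_eq_zero_of_lt h]
    simp
  · have e1 : f.natDegree - n = (f.natDegree - k) + (k - n) := by omega
    rw [e1, pow_add, mul_pow]
    ring

theorem tay_split {R : Type} [CommRing R] (f : R[X]) (r : R) (n : ℕ) :
    (taylor r f).coeff n - f.coeff n =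
      ∑ i ∈ (Finset.range (f.natDegree + 1)).erase n,
        (i.choose n : R) * f.coeff i * r ^ (i - n) := by
  rw [tay_coeff]
  by_cases h : n ∈ Finset.range (f.natDegree + 1)
  · rw [← Finset.add_sum_erase _ _ h, Nat.choose_self, Nat.sub_self, pow_zero]
    push_cast
    ring
  · rw [Finset.erase_eq_of_notMem h, coeff_eq_zero_of_natDegree_lt (by
      rw [Finset.mem_range] at h; omega), sub_zero]

theorem zer_tay {R : Type} [CommRing R] {I : Ideal R} {p : R[X]} (t : R) (h : Zer I p) :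
    Zer I (taylor t p) := by
  intro n
  rw [tay_coeff]
  exact sum_mem fun k _ => I.mul_mem_right _ (I.mul_mem_left _ (h k))

theorem zer_tay_sub {R : Type} [CommRing R] {I : Ideal R} (p : R[X]) {t : R} (ht : t ∈ I) :
    Zer I (taylor t p - p) := by
  intro n
  rw [coeff_sub, tay_split]
  refine sum_mem fun k hk => ?_
  rcases lt_or_ge k n with h | h
  · rw [Nat.choose_eq_zero_of_lt h]
    simp
  · have hkn : k ≠ n := (Finset.mem_erase.1 hk).1
    exact I.mul_mem_left _ (I.pow_mem_of_mem ht _ (by omega))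

theorem zer_add {R : Type} [CommRing R] {I : Ideal R} {p q : R[X]} (hp : Zer I p)
    (hq : Zer I q) : Zer I (p + q) := fun n => by
  rw [coeff_add]
  exact I.add_mem (hp n) (hq n)

theorem sing_tay {R : Type} [CommRing R] {P : Ideal R} {f : R[X]} (t : R) (h : Sing P f) :
    Sing P (taylor t f) := by
  obtain ⟨γ, a, b, c, hm, hi, hb, hc, rfl⟩ := h
  refine ⟨taylor t γ, taylor t a, taylor t b, taylor t c, ?_, ?_, zer_tay t hb, zer_tay t hc, ?_⟩
  · rw [Monic, leadingCoeff_taylor]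
    exact hm
  · have h1 : md P (taylor t γ) = taylorEquiv (Ideal.Quotient.mk P t) (md P γ) := map_taylor _ _ _
    rw [h1]
    exact (MulEquiv.irreducible_iff (taylorEquiv (Ideal.Quotient.mk P t))).2 hi
  · rw [map_add, map_add, taylor_mul, taylor_mul, taylor_pow]

theorem smooth_tay {R : Type} [CommRing R] [IsDomain R] {f : R[X]} (t : R) (h : Smooth f) :
    Smooth (taylor t f) := by
  intro P hP
  apply h P
  have h1 := sing_tay (-t) hP
  rwa [taylor_taylor, neg_add_cancel, taylor_zero] at h1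

end Tay

section Fam

variable {R : Type} [CommRing R] {K : Type} [Field K] [Algebra R K] {O : ValuationSubring K}
  {π : K}

theorem lm_neg {m : ℤ} {a : R} (ha : a ∈ Lm R O π m) : -a ∈ Lm R O π m := by
  simp only [Lm, Set.mem_ofPred_eq] at ha ⊢
  rw [map_neg, neg_mul]
  exact neg_mem ha

theorem lm_mul {m : ℤ} {u a : R} (hu : algebraMap R K u ∈ O) (ha : a ∈ Lm R O π m) :
    u * a ∈ Lm R O π m := by
  simp only [Lm, Set.mem_ofPred_eq] at ha ⊢
  rw [map_mul, mul_assoc]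
  exact mul_mem hu ha

/-- One step up in the filtration. -/
theorem lm_succ {h : ℕ} (hπ0 : π ≠ 0) {r : R}
    (hr : r ∈ Lm R O π ((h : ℤ) - 1)) :
    ∃ w : K, w ∈ O ∧ algebraMap R K r * π ^ h = π * w := by
  refine ⟨algebraMap R K r * π ^ ((h : ℤ) - 1), hr, ?_⟩
  rw [zpow_sub_one₀ hπ0, zpow_natCast]
  field_simp

theorem lm_le {h : ℕ} (hπ0 : π ≠ 0) (hπ : π ∈ O) {r : R}
    (hr : r ∈ Lm R O π ((h : ℤ) - 1)) : r ∈ Lm R O π (h : ℤ) := by
  obtain ⟨w, hw, e⟩ := lm_succ hπ0 hr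
  simp only [Lm, Set.mem_ofPred_eq, zpow_natCast]
  rw [e]
  exact mul_mem hπ hw

theorem lm_tay {N h : ℕ} {f : R[X]} {r : R} (hn : f.natDegree = N)
    (hc : ∀ i ≤ N, f.coeff (N - i) ∈ Lm R O π ((i * h : ℕ) : ℤ)) (hr : r ∈ Lm R O π (h : ℤ))
    (i : ℕ) (hi : i ≤ N) : (taylor r f).coeff (N - i) ∈ Lm R O π ((i * h : ℕ) : ℤ) := by
  simp only [Lm, Set.mem_ofPred_eq, zpow_natCast] at hc hr ⊢
  rw [tay_coeff, map_sum, Finset.sum_mul]
  refine sum_mem fun k hk => ?_
  rw [hn, Finset.mem_range] at hk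
  rcases lt_or_ge k (N - i) with hlt | hge
  · rw [Nat.choose_eq_zero_of_lt hlt]
    simp
  · obtain ⟨j, hj⟩ := Nat.exists_eq_add_of_le hge
    have h1 := hc (N - k) (Nat.sub_le _ _)
    rw [Nat.sub_sub_self (by omega)] at h1
    have h2 : (N - k) + j = i := by omega
    have h3 : k - (N - i) = j := by omega
    have h4 : algebraMap R K ((k.choose (N - i) : R) * f.coeff k * r ^ (k - (N - i))) *
        π ^ (i * h) = ((k.choose (N - i) : ℕ) : K) *
          (algebraMap R K (f.coeff k) * π ^ ((N - k) * h)) * (algebraMap R K r * π ^ h) ^ j := by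
      rw [h3, ← h2, map_mul, map_mul, map_pow, map_natCast, add_mul, pow_add, mul_pow, ← pow_mul,
        mul_comm h j]
      ring
    rw [h4]
    exact mul_mem (mul_mem (natCast_mem O _) h1) (pow_mem hr j)

/-- The top coefficients do not change. -/
theorem top_tay {N h : ℕ} {f : R[X]} {r : R} (hπ0 : π ≠ 0) (hπ : π ∈ O)
    (hn : f.natDegree = N)
    (hc : ∀ i ≤ N, f.coeff (N - i) ∈ Lm R O π ((i * h : ℕ) : ℤ))
    (hr : r ∈ Lm R O π ((h : ℤ) - 1)) (i : ℕ) (hi : i ≤ N) :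
    ∃ w : K, w ∈ O ∧ algebraMap R K ((taylor r f).coeff (N - i) - f.coeff (N - i)) *
      π ^ (i * h) = π * w := by
  obtain ⟨w, hw, hrw⟩ := lm_succ hπ0 hr
  simp only [Lm, Set.mem_ofPred_eq, zpow_natCast] at hc
  rw [tay_split, map_sum, Finset.sum_mul]
  have key : ∀ k ∈ (Finset.range (f.natDegree + 1)).erase (N - i), ∃ v : K, v ∈ O ∧
      algebraMap R K ((k.choose (N - i) : R) * f.coeff k * r ^ (k - (N - i))) * π ^ (i * h) =
        π * v := by
    intro k hk
    obtain ⟨hk1, hk2⟩ := Finset.mem_erase.1 hk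
    rw [hn, Finset.mem_range] at hk2
    rcases lt_or_ge k (N - i) with hlt | hge
    · refine ⟨0, zero_mem _, ?_⟩
      rw [Nat.choose_eq_zero_of_lt hlt]
      simp
    · obtain ⟨j, hj⟩ := Nat.exists_eq_add_of_lt (lt_of_le_of_ne hge (Ne.symm hk1))
      have h1 := hc (N - k) (Nat.sub_le _ _)
      rw [Nat.sub_sub_self (by omega)] at h1
      have h2 : (N - k) + (j + 1) = i := by omega
      have h3 : k - (N - i) = j + 1 := by omega
      have h4 : algebraMap R K ((k.choose (N - i) : R) * f.coeff k * r ^ (k - (N - i))) *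
          π ^ (i * h) = ((k.choose (N - i) : ℕ) : K) *
            (algebraMap R K (f.coeff k) * π ^ ((N - k) * h)) *
              (algebraMap R K r * π ^ h) ^ (j + 1) := by
        rw [h3, ← h2, map_mul, map_mul, map_pow, map_natCast, add_mul, pow_add (π), mul_pow,
          ← pow_mul, mul_comm h (j + 1)]
        ring
      refine ⟨((k.choose (N - i) : ℕ) : K) * (algebraMap R K (f.coeff k) * π ^ ((N - k) * h)) *
        ((algebraMap R K r * π ^ h) ^ j * w), ?_, ?_⟩
      · refine mul_mem (mul_mem (natCast_mem O _) h1) (mul_mem (pow_mem ?_ j) hw)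
        rw [hrw]
        exact mul_mem hπ hw
      · rw [h4, pow_succ, hrw]
        ring
  choose! v hv1 hv2 using key
  refine ⟨∑ k ∈ (Finset.range (f.natDegree + 1)).erase (N - i), v k, sum_mem hv1, ?_⟩
  rw [Finset.mul_sum]
  exact Finset.sum_congr rfl hv2

end Fam

section Main

variable {R : Type} [CommRing R] [IsDomain R] {K : Type} [Field K] [Algebra R K]
  {O : ValuationSubring K} {π : K}

/-- The translations. -/
def Tr (π : K) (D : Dat R O) (h : ℕ) : Set R :=
  {t | t ∈ Lm R O π ((h : ℤ) - 1) ∧ (∀ P ∈ D.T, t ∈ P.asIdeal) ∧ ∀ P ∈ D.T', t ∈ P.asIdeal}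

theorem tr_neg {D : Dat R O} {h : ℕ} {t : R} (ht : t ∈ Tr π D h) : -t ∈ Tr π D h :=
  ⟨lm_neg ht.1, fun P hP => P.asIdeal.neg_mem (ht.2.1 P hP),
    fun P hP => P.asIdeal.neg_mem (ht.2.2 P hP)⟩

theorem tr_mul {D : Dat R O} {h : ℕ} {u t : R} (hu : algebraMap R K u ∈ O)
    (ht : t ∈ Tr π D h) : u * t ∈ Tr π D h :=
  ⟨lm_mul hu ht.1, fun P hP => P.asIdeal.mul_mem_left _ (ht.2.1 P hP),
    fun P hP => P.asIdeal.mul_mem_left _ (ht.2.2 P hP)⟩

theorem pi_max (hπ : π ∈ O) (hπ' : π⁻¹ ∉ O) {x : O} {w : K} (hw : w ∈ O)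
    (h : (x : K) = π * w) : IsLocalRing.residue O x = 0 := by
  have e : x = (⟨π, hπ⟩ : O) * ⟨w, hw⟩ := Subtype.ext h
  have h1 : (⟨π, hπ⟩ : O) ∈ IsLocalRing.maximalIdeal O := by
    rw [IsLocalRing.mem_maximalIdeal]
    intro hu
    obtain ⟨v, hv⟩ := hu.exists_right_inv
    have h2 := congrArg (Subtype.val) hv
    have h3 : π * (v : K) = 1 := h2
    apply hπ'
    have h4 : π⁻¹ = (v : K) := by
      rw [← mul_one π⁻¹, ← h3, inv_mul_cancel_left₀ (left_ne_zero_of_mul_eq_one h3)]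
    rw [h4]
    exact v.2
  rw [e, map_mul, (IsLocalRing.residue_eq_zero_iff _).2 h1, zero_mul]

theorem fam_tay (hπ0 : π ≠ 0) (hπ : π ∈ O) (hπ' : π⁻¹ ∉ O) {g : ℕ} {D : Dat R O} {h : ℕ}
    {f : R[X]} {t : R} (hf : f ∈ FamS π g D h) (ht : t ∈ Tr π D h) :
    taylor t f ∈ FamS π g D h := by
  obtain ⟨⟨⟨hm, hn, hc⟩, htop, hT, hT'⟩, hs⟩ := hf
  refine ⟨⟨⟨?_, by rw [natDegree_taylor, hn], lm_tay hn hc (lm_le hπ0 hπ ht.1)⟩, ?_, ?_, ?_⟩,
    smooth_tay t hs⟩
  · rw [Monic, leadingCoeff_taylor]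
    exact hm
  · intro i hi z hz
    have h0 := hc i hi
    simp only [Lm, Set.mem_ofPred_eq, zpow_natCast] at h0
    have h1 := htop i hi ⟨_, h0⟩ rfl
    obtain ⟨w, hw, e⟩ := top_tay hπ0 hπ hn hc ht.1 i hi
    have h2 : ((z - ⟨_, h0⟩ : O) : K) = π * w := by
      rw [← e, map_sub, sub_mul, ← hz]
      rfl
    have h3 := pi_max hπ hπ' hw h2
    rw [map_sub, sub_eq_zero] at h3
    rw [h3, h1]
  · intro P hP
    have e : taylor t f - (X - C (D.c P)) * D.γ P = (taylor t f - f) +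
      (f - (X - C (D.c P)) * D.γ P) := by ring
    rw [e]
    exact zer_add (zer_tay_sub f (ht.2.1 P hP)) (hT P hP)
  · intro P hP
    have e : taylor t f - D.ρ P = (taylor t f - f) + (f - D.ρ P) := by ring
    rw [e]
    exact zer_add (zer_tay_sub f (ht.2.2 P hP)) (hT' P hP)

theorem lawT_tay {ε : ℝ} {D : Dat R O} {dS : Finset (HeightOneSpectrum R) → R} {f : R[X]}
    (t : R) : LawT K ε D dS (taylor t f) ↔ LawT K ε D dS f := by
  have hS : ∀ S : Finset (HeightOneSpectrum R),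
      ((SelG (fk K ((taylor t f).scaleRoots (dS S)))).Finite ↔
        (SelG (fk K (f.scaleRoots (dS S)))).Finite) ∧
      (SelG (fk K ((taylor t f).scaleRoots (dS S)))).ncard =
        (SelG (fk K (f.scaleRoots (dS S)))).ncard := by
    intro S
    refine sel_comp (ρ := algebraMap R K (dS S * t)) ?_
    rw [tay_scale]
    have h1 : fk K (taylor (dS S * t) (f.scaleRoots (dS S))) =
      taylor (algebraMap R K (dS S * t)) (fk K (f.scaleRoots (dS S))) := map_taylor _ _ _
    rw [h1, taylor_apply]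
  unfold LawT
  simp only [fun S => (hS S).1, fun S => (hS S).2]

omit [IsDomain R] in
theorem tay_top {g : ℕ} {f : R[X]} (r : R) (hm : f.Monic)
    (hn : f.natDegree = 2 * g + 1) :
    (taylor r f).coeff (2 * g) = f.coeff (2 * g) + ((2 * g + 1 : ℕ) : R) * r := by
  rw [tay_coeff, hn, Finset.sum_range_succ, Finset.sum_range_succ, Finset.sum_eq_zero]
  · have h1 : f.coeff (2 * g + 1) = 1 := by
      have := hm.coeff_natDegree
      rwa [hn] at this
    rw [h1, Nat.choose_self, Nat.choose_succ_self_right]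
    simp
  · intro i hi
    rw [Finset.mem_range] at hi
    rw [Nat.choose_eq_zero_of_lt hi]
    simp

theorem a1_mem (hπ0 : π ≠ 0) (hπv : ∀ x : K, x ≠ 0 → ∃ n : ℤ, x / π ^ n ∈ O ∧ (x / π ^ n)⁻¹ ∈ O)
    (hπ : π ∈ O) {g : ℕ} {D : Dat R O} {h : ℕ}
    (h0 : Tr0 D g) {f : R[X]} (hf : f ∈ FamS π g D h) :
    f.coeff (2 * g) ∈ Tr π D h := by
  obtain ⟨⟨⟨hm, hn, hc⟩, htop, hT, hT'⟩, hs⟩ := hf
  obtain ⟨k1, k2, k3⟩ := h0
  refine ⟨?_, ?_, ?_⟩
  · have h1 := hc 1 (by omega)
    rw [Nat.add_sub_cancel, one_mul] at h1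
    have h2 := htop 1 (by omega)
    rw [Nat.add_sub_cancel, one_mul, k3] at h2
    simp only [Lm, Set.mem_ofPred_eq, zpow_natCast] at h1
    have h3 := h2 ⟨_, h1⟩ rfl
    rw [IsLocalRing.residue_eq_zero_iff, IsLocalRing.mem_maximalIdeal] at h3
    simp only [Lm, Set.mem_ofPred_eq]
    set x : K := algebraMap R K (f.coeff (2 * g)) * π ^ h with hx
    have e : algebraMap R K (f.coeff (2 * g)) * π ^ ((h : ℤ) - 1) = x / π := by
      rw [hx, zpow_sub_one₀ hπ0, zpow_natCast]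
      field_simp
    rw [e]
    rcases eq_or_ne x 0 with hx0 | hx0
    · rw [hx0, zero_div]
      exact zero_mem _
    · obtain ⟨n, hn1, hn2⟩ := hπv x hx0
      have hn3 : 1 ≤ n := by
        by_contra hlt
        push Not at hlt
        apply h3
        obtain ⟨m, hm⟩ := Int.eq_ofNat_of_zero_le (show 0 ≤ -n by omega)
        have h4 : x⁻¹ ∈ O := by
          have h5 : x⁻¹ = (x / π ^ n)⁻¹ * π ^ m := by
            rw [inv_div, ← zpow_natCast, ← hm, _root_.zpow_neg]
            field_simp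
          rw [h5]
          exact mul_mem hn2 (pow_mem hπ m)
        refine IsUnit.of_mul_eq_one (⟨x⁻¹, h4⟩ : O) ?_
        exact Subtype.ext (mul_inv_cancel₀ hx0)
      obtain ⟨m, hm⟩ := Int.eq_ofNat_of_zero_le (show 0 ≤ n - 1 by omega)
      have h5 : x / π = (x / π ^ n) * π ^ m := by
        rw [← zpow_natCast, ← hm, zpow_sub_one₀ hπ0]
        field_simp
      rw [h5]
      exact mul_mem hn1 (pow_mem hπ m)
  · intro P hP
    have h1 := hT P hP (2 * g)
    rw [coeff_sub] at h1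
    have h2 := P.asIdeal.add_mem h1 (k1 P hP)
    rwa [sub_add_cancel] at h2
  · intro P hP
    have h1 := hT' P hP (2 * g)
    rw [coeff_sub] at h1
    have h2 := P.asIdeal.add_mem h1 (k2 P hP)
    rwa [sub_add_cancel] at h2

/-- Counting with a translation invariant property. -/
theorem cnt (hπ0 : π ≠ 0) (hπv : ∀ x : K, x ≠ 0 → ∃ n : ℤ, x / π ^ n ∈ O ∧ (x / π ^ n)⁻¹ ∈ O)
    (hπ : π ∈ O) (hπ' : π⁻¹ ∉ O) {g : ℕ} {D : Dat R O} {h : ℕ}
    (h0 : Tr0 D g) {u : R} (hu : ((2 * g + 1 : ℕ) : R) * u = 1) (hO : algebraMap R K u ∈ O)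
    (Q : R[X] → Prop) (hQ : ∀ f t, Q (taylor t f) ↔ Q f) :
    {f | f ∈ FamS π g D h ∧ Q f}.ncard =
      (Tr π D h).ncard * {f | (f ∈ FamS π g D h ∧ f.coeff (2 * g) = 0) ∧ Q f}.ncard := by
  have h1 : {f | f ∈ FamS π g D h ∧ Q f} = (fun z : R[X] × R => taylor (u * z.2) z.1) ''
      ({f | (f ∈ FamS π g D h ∧ f.coeff (2 * g) = 0) ∧ Q f} ×ˢ Tr π D h) := by
    ext F
    constructor
    · rintro ⟨hF, hPF⟩
      have hm := hF.1.1.1
      have hn := hF.1.1.2.1
      have ha := a1_mem hπ0 hπv hπ h0 hF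
      have hr : -(u * F.coeff (2 * g)) ∈ Tr π D h := tr_neg (tr_mul hO ha)
      refine ⟨(taylor (-(u * F.coeff (2 * g))) F, F.coeff (2 * g)),
        ⟨⟨⟨fam_tay hπ0 hπ hπ' hF hr, ?_⟩, (hQ F _).2 hPF⟩, ha⟩, ?_⟩
      · show (taylor (-(u * F.coeff (2 * g))) F).coeff (2 * g) = 0
        rw [tay_top _ hm hn]
        linear_combination (-F.coeff (2 * g)) * hu
      · show taylor (u * F.coeff (2 * g)) (taylor (-(u * F.coeff (2 * g))) F) = F
        rw [taylor_taylor, add_neg_cancel, taylor_zero]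
    · rintro ⟨⟨f, a⟩, ⟨⟨⟨hf, -⟩, hPf⟩, ha⟩, rfl⟩
      exact ⟨fam_tay hπ0 hπ hπ' hf (tr_mul hO ha), (hQ f _).2 hPf⟩
  rw [h1, Set.InjOn.ncard_image, Set.ncard_prod, mul_comm]
  rintro ⟨f, a⟩ ⟨⟨⟨hf, hf0⟩, -⟩, -⟩ ⟨f', a'⟩ ⟨⟨⟨hf', hf0'⟩, -⟩, -⟩ he
  have he' : taylor (u * a) f = taylor (u * a') f' := he
  have h1 := tay_top (u * a) hf.1.1.1 hf.1.1.2.1
  have h2 := tay_top (u * a') hf'.1.1.1 hf'.1.1.2.1
  have hf0a : f.coeff (2 * g) = 0 := hf0
  have hf0b : f'.coeff (2 * g) = 0 := hf0'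
  rw [hf0a] at h1
  rw [hf0b, ← he', h1] at h2
  have h3 : a = a' := by linear_combination h2 - (a - a') * hu
  subst h3
  exact Prod.ext (taylor_injective _ he') rfl

end Main

/-- The inverse of a natural number which is a unit of `R` is in `O`. -/
theorem inv_nat {R : Type} [CommRing R] [IsDedekindDomain R] {K : Type} [Field K] [Algebra R K]
    [IsFractionRing R K] {O : ValuationSubring K} {π : K} (hG : GR R O π) {N : ℕ}
    (hN : IsUnit ((N : ℕ) : R)) : ∃ u : R, (N : R) * u = 1 ∧ algebraMap R K u ∈ O := by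
  obtain ⟨p, hp, hcp⟩ := hG.char
  obtain ⟨u, hu⟩ := hN.exists_right_inv
  have hK : ((N : ℕ) : K) * algebraMap R K u = 1 := by
    have := congrArg (algebraMap R K) hu
    rwa [map_mul, map_natCast, map_one] at this
  have hN0 : ((N : ℕ) : K) ≠ 0 := left_ne_zero_of_mul_eq_one hK
  have hcop : N.Coprime p := by
    rw [Nat.coprime_comm, hp.coprime_iff_not_dvd]
    intro hd
    exact hN0 ((CharP.cast_eq_zero_iff K p N).2 hd)
  obtain ⟨m, -, hm⟩ := Nat.exists_mul_mod_eq_one_of_coprime hcop hp.one_lt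
  have h1 : ((N : ℕ) : K) * (m : K) = 1 := by
    rw [← Nat.cast_mul, CharP.cast_eq_mod K p, hm, Nat.cast_one]
  have h2 : algebraMap R K u = (m : K) := mul_left_cancel₀ hN0 (hK.trans h1.symm)
  refine ⟨u, hu, ?_⟩
  rw [h2]
  exact natCast_mem O m

end SHAK

theorem shak : SHAKStmt := by
  intro R _ _ K _ _ _ O π hG hU g D hg hD h0 hN h hh
  obtain ⟨u, hu, hO⟩ := SHAK.inv_nat hG hN
  have hfin : (SHAK.Tr π D h).Finite := (hU ((h : ℤ) - 1)).1.subset fun t ht => ht.1
  refine ⟨(SHAK.Tr π D h).ncard, ?_, ?_, ?_, ?_⟩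
  · rw [Set.ncard_pos hfin]
    refine ⟨0, ?_, fun P _ => zero_mem _, fun P _ => zero_mem _⟩
    simp only [Lm, Set.mem_ofPred_eq, map_zero, zero_mul]
    exact zero_mem _
  · refine Set.ncard_le_ncard (fun t ht => ?_) (hU (h : ℤ)).1
    exact SHAK.lm_le hG.pi_ne hG.pi_mem ht.1
  · have h1 := SHAK.cnt (h := h) hG.pi_ne hG.val hG.pi_mem hG.pi_inv h0 hu hO (fun _ => True)
      (fun _ _ => Iff.rfl)
    simpa using h1
  · intro ε dS _
    exact SHAK.cnt hG.pi_ne hG.val hG.pi_mem hG.pi_inv h0 hu hO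
      (fun f => ¬ LawT K ε D dS f) (fun f t => not_congr (SHAK.lawT_tay t))

end Pool.PRK
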